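import Mathlib
import Pool.Agent.W515.LDFinal

/-!
# Three polynomials in characteristic two

From three polynomials `e1, e2, e3` over a field of characteristic two, the seven nonzero sums of
which have the same degree `N > 0` and which satisfy `SS3 e1 e2 e3 = 1`, we get a three-dimensional
space of logarithmic forms `dz / P` with `P` of degree `4 N`.
-/

set_option autoImplicit false

namespace Pool.Agent.W2helper79.L2

open Polynomial
open Pool.Agent.W515.LD (dX dlog D_poly dX_ne_zero dlog_mul)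

variable {k : Type*} [Field k] [Algebra (ZMod 2) k]

lemma two_poly (k : Type*) [Field k] [Algebra (ZMod 2) k] : (2 : k[X]) = 0 := by
  exact_mod_cast W515.LD.cast_p_poly (p := 2) (k := k)

/-- the determinant of the `e_i ^ 2`, `e_i`, `e_i'` (in characteristic two) -/
noncomputable def SS3 (e1 e2 e3 : k[X]) : k[X] :=
  e1 ^ 2 * (e2 * derivative e3 + e3 * derivative e2) +
    e2 ^ 2 * (e1 * derivative e3 + e3 * derivative e1) +
    e3 ^ 2 * (e1 * derivative e2 + e2 * derivative e1)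

/-- `dlog` of a polynomial -/
noncomputable def LG (F : k[X]) : Ω[RatFunc k⁄k] := dlog (algebraMap k[X] (RatFunc k) F)

omit [Algebra (ZMod 2) k] in
lemma LG_four (F1 F2 F3 F4 : k[X]) (h1 : F1 ≠ 0) (h2 : F2 ≠ 0) (h3 : F3 ≠ 0) (h4 : F4 ≠ 0)
    (h : derivative (F1 * F2 * F3 * F4) = 1) :
    LG F1 + LG F2 + LG F3 + LG F4 = (algebraMap k[X] (RatFunc k) (F1 * F2 * F3 * F4))⁻¹ • dX k ∧
    LG F1 + LG F2 + LG F3 + LG F4 = dlog (algebraMap k[X] (RatFunc k) (F1 * F2 * F3 * F4)) := by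
  have hφ0 : ∀ Q : k[X], Q ≠ 0 → algebraMap k[X] (RatFunc k) Q ≠ 0 := by
    intro Q hQ
    rw [ne_eq, FaithfulSMul.algebraMap_eq_zero_iff]
    exact hQ
  have hB : LG F1 + LG F2 + LG F3 + LG F4 =
      dlog (algebraMap k[X] (RatFunc k) (F1 * F2 * F3 * F4)) := by
    rw [map_mul, map_mul, map_mul, dlog_mul _ _ (mul_ne_zero (mul_ne_zero (hφ0 _ h1) (hφ0 _ h2))
      (hφ0 _ h3)) (hφ0 _ h4), dlog_mul _ _ (mul_ne_zero (hφ0 _ h1) (hφ0 _ h2)) (hφ0 _ h3),
      dlog_mul _ _ (hφ0 _ h1) (hφ0 _ h2)]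
    rfl
  refine ⟨?_, hB⟩
  rw [hB, dlog, D_poly, h, map_one, one_smul]

/-- the linear family of forms -/
noncomputable def form3 (e1 e2 e3 : k[X]) :
    (ZMod 2 × ZMod 2 × ZMod 2) →ₗ[ZMod 2] Ω[RatFunc k⁄k] where
  toFun a := a.1 • LG e1 + a.2.1 • LG e2 + a.2.2 • LG e3 + (a.1 + a.2.1) • LG (e1 + e2) +
    (a.1 + a.2.2) • LG (e1 + e3) + (a.2.1 + a.2.2) • LG (e2 + e3) +
    (a.1 + a.2.1 + a.2.2) • LG (e1 + e2 + e3)
  map_add' a b := by
    simp only [Prod.fst_add, Prod.snd_add, add_smul]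
    abel
  map_smul' c a := by
    simp only [Prod.smul_fst, Prod.smul_snd, smul_eq_mul, RingHom.id_apply, smul_add, smul_smul,
      mul_add]

lemma form3_apply (e1 e2 e3 : k[X]) (a : ZMod 2 × ZMod 2 × ZMod 2) :
    form3 e1 e2 e3 a = a.1 • LG e1 + a.2.1 • LG e2 + a.2.2 • LG e3 + (a.1 + a.2.1) • LG (e1 + e2) +
    (a.1 + a.2.2) • LG (e1 + e3) + (a.2.1 + a.2.2) • LG (e2 + e3) +
    (a.1 + a.2.1 + a.2.2) • LG (e1 + e2 + e3) := rfl

section der

variable (e1 e2 e3 : k[X]) (hS : SS3 e1 e2 e3 = 1)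

include hS

lemma der100 : derivative (e1 * (e1 + e2) * (e1 + e3) * (e1 + e2 + e3)) = 1 := by
  have h2 := two_poly k
  rw [SS3] at hS
  simp only [derivative_mul, derivative_add]
  generalize derivative e1 = d1 at hS ⊢
  generalize derivative e2 = d2 at hS ⊢
  generalize derivative e3 = d3 at hS ⊢
  linear_combination hS + (3*d1*e1*e2*e3 + d1*e1*e2^2 + d1*e1*e3^2 + 3*d1*e1^2*e2 + 3*d1*e1^2*e3 +
    2*d1*e1^3 + d2*e1*e2*e3 + d2*e1^2*e2 + d2*e1^2*e3 + d2*e1^3 + d3*e1*e2*e3 + d3*e1^2*e2 +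
    d3*e1^2*e3 + d3*e1^3) * h2

lemma der010 : derivative (e2 * (e1 + e2) * (e2 + e3) * (e1 + e2 + e3)) = 1 := by
  have h2 := two_poly k
  rw [SS3] at hS
  simp only [derivative_mul, derivative_add]
  generalize derivative e1 = d1 at hS ⊢
  generalize derivative e2 = d2 at hS ⊢
  generalize derivative e3 = d3 at hS ⊢
  linear_combination hS + (d1*e1*e2*e3 + d1*e1*e2^2 + d1*e2^2*e3 + d1*e2^3 + 3*d2*e1*e2*e3 +
    3*d2*e1*e2^2 + d2*e1^2*e2 + d2*e2*e3^2 + 3*d2*e2^2*e3 + 2*d2*e2^3 + d3*e1*e2*e3 + d3*e1*e2^2 +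
    d3*e2^2*e3 + d3*e2^3) * h2

lemma der001 : derivative (e3 * (e1 + e3) * (e2 + e3) * (e1 + e2 + e3)) = 1 := by
  have h2 := two_poly k
  rw [SS3] at hS
  simp only [derivative_mul, derivative_add]
  generalize derivative e1 = d1 at hS ⊢
  generalize derivative e2 = d2 at hS ⊢
  generalize derivative e3 = d3 at hS ⊢
  linear_combination hS + (d1*e1*e2*e3 + d1*e1*e3^2 + d1*e2*e3^2 + d1*e3^3 + d2*e1*e2*e3 +
    d2*e1*e3^2 + d2*e2*e3^2 + d2*e3^3 + 3*d3*e1*e2*e3 + 3*d3*e1*e3^2 + d3*e1^2*e3 + 3*d3*e2*e3^2 +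
    d3*e2^2*e3 + 2*d3*e3^3) * h2

lemma der110 : derivative (e1 * e2 * (e1 + e3) * (e2 + e3)) = 1 := by
  have h2 := two_poly k
  rw [SS3] at hS
  simp only [derivative_mul, derivative_add]
  generalize derivative e1 = d1 at hS ⊢
  generalize derivative e2 = d2 at hS ⊢
  generalize derivative e3 = d3 at hS ⊢
  linear_combination hS + (d1*e1*e2*e3 + d1*e1*e2^2 + d2*e1*e2*e3 + d2*e1^2*e2 +
    d3*e1*e2*e3) * h2

lemma der101 : derivative (e1 * e3 * (e1 + e2) * (e2 + e3)) = 1 := by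
  have h2 := two_poly k
  rw [SS3] at hS
  simp only [derivative_mul, derivative_add]
  generalize derivative e1 = d1 at hS ⊢
  generalize derivative e2 = d2 at hS ⊢
  generalize derivative e3 = d3 at hS ⊢
  linear_combination hS + (d1*e1*e2*e3 + d1*e1*e3^2 + d2*e1*e2*e3 + d3*e1*e2*e3 +
    d3*e1^2*e3) * h2

lemma der011 : derivative (e2 * e3 * (e1 + e2) * (e1 + e3)) = 1 := by
  have h2 := two_poly k
  rw [SS3] at hS
  simp only [derivative_mul, derivative_add]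
  generalize derivative e1 = d1 at hS ⊢
  generalize derivative e2 = d2 at hS ⊢
  generalize derivative e3 = d3 at hS ⊢
  linear_combination hS + (d1*e1*e2*e3 + d2*e1*e2*e3 + d2*e2*e3^2 + d3*e1*e2*e3 +
    d3*e2^2*e3) * h2

lemma der111 : derivative (e1 * e2 * e3 * (e1 + e2 + e3)) = 1 := by
  have h2 := two_poly k
  rw [SS3] at hS
  simp only [derivative_mul, derivative_add]
  generalize derivative e1 = d1 at hS ⊢
  generalize derivative e2 = d2 at hS ⊢
  generalize derivative e3 = d3 at hS ⊢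
  linear_combination hS + (d1*e1*e2*e3 + d2*e1*e2*e3 + d3*e1*e2*e3) * h2

end der

lemma form3_eq (e1 e2 e3 : k[X]) (N : ℕ) (hN : 0 < N) (hS : SS3 e1 e2 e3 = 1)
    (h1 : e1.natDegree = N) (h2 : e2.natDegree = N) (h3 : e3.natDegree = N)
    (h12 : (e1 + e2).natDegree = N) (h13 : (e1 + e3).natDegree = N)
    (h23 : (e2 + e3).natDegree = N) (h123 : (e1 + e2 + e3).natDegree = N)
    (a : ZMod 2 × ZMod 2 × ZMod 2) (ha : a ≠ 0) :
    ∃ P : k[X], P ≠ 0 ∧ P.natDegree = 4 * N ∧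
      form3 e1 e2 e3 a = (algebraMap k[X] (RatFunc k) P)⁻¹ • dX k ∧
      form3 e1 e2 e3 a = dlog (algebraMap k[X] (RatFunc k) P) := by
  have key : ∀ F1 F2 F3 F4 : k[X], F1.natDegree = N → F2.natDegree = N → F3.natDegree = N →
      F4.natDegree = N → derivative (F1 * F2 * F3 * F4) = 1 →
      form3 e1 e2 e3 a = LG F1 + LG F2 + LG F3 + LG F4 →
      ∃ P : k[X], P ≠ 0 ∧ P.natDegree = 4 * N ∧
      form3 e1 e2 e3 a = (algebraMap k[X] (RatFunc k) P)⁻¹ • dX k ∧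
      form3 e1 e2 e3 a = dlog (algebraMap k[X] (RatFunc k) P) := by
    intro F1 F2 F3 F4 g1 g2 g3 g4 hd hf
    have hne : ∀ F : k[X], F.natDegree = N → F ≠ 0 := by
      rintro F hF rfl
      rw [natDegree_zero] at hF
      omega
    have k1 := hne F1 g1
    have k2 := hne F2 g2
    have k3 := hne F3 g3
    have k4 := hne F4 g4
    refine ⟨F1 * F2 * F3 * F4, mul_ne_zero (mul_ne_zero (mul_ne_zero k1 k2) k3) k4, ?_, ?_, ?_⟩
    · rw [natDegree_mul (mul_ne_zero (mul_ne_zero k1 k2) k3) k4,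
        natDegree_mul (mul_ne_zero k1 k2) k3, natDegree_mul k1 k2, g1, g2, g3, g4]
      ring
    · rw [hf]
      exact (LG_four F1 F2 F3 F4 k1 k2 k3 k4 hd).1
    · rw [hf]
      exact (LG_four F1 F2 F3 F4 k1 k2 k3 k4 hd).2
  have h11 : (1 + 1 : ZMod 2) = 0 := by decide
  have hcase : ∀ x : ZMod 2, x = 0 ∨ x = 1 := by decide
  obtain ⟨x, y, z⟩ := a
  rcases hcase x with rfl | rfl <;> rcases hcase y with rfl | rfl <;> rcases hcase z with rfl | rfl
  · exact absurd rfl ha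
  · refine key _ _ _ _ h3 h13 h23 h123 (der001 e1 e2 e3 hS) ?_
    rw [form3_apply]
    simp
  · refine key _ _ _ _ h2 h12 h23 h123 (der010 e1 e2 e3 hS) ?_
    rw [form3_apply]
    simp
  · refine key _ _ _ _ h2 h3 h12 h13 (der011 e1 e2 e3 hS) ?_
    rw [form3_apply]
    simp [h11]
  · refine key _ _ _ _ h1 h12 h13 h123 (der100 e1 e2 e3 hS) ?_
    rw [form3_apply]
    simp
  · refine key _ _ _ _ h1 h3 h12 h23 (der101 e1 e2 e3 hS) ?_
    rw [form3_apply]
    simp [h11]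
  · refine key _ _ _ _ h1 h2 h13 h23 (der110 e1 e2 e3 hS) ?_
    rw [form3_apply]
    simp [h11]
  · refine key _ _ _ _ h1 h2 h3 h123 (der111 e1 e2 e3 hS) ?_
    rw [form3_apply]
    simp [h11]

end Pool.Agent.W2helper79.L2
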