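import Mathlib
import Pool.Agent.W2helper79.L2.Basis
import Pool.Agent.Results.MP_f76cdc_ag.DivisibilityFails

/-!
# The divisibility condition in characteristic two

The nonzero forms of a space `L_{m+1,n}` in characteristic two are `dz / P` with `P' = 1` and `P` of
degree `m + 1`; the set of the zeros of the polynomial of a sum is the symmetric difference of the
sets of the zeros.
-/

set_option autoImplicit false

namespace Pool.Agent.W2helper79.L2

open Polynomial
open Pool.Agent.W515.LD (dX dlog D_poly dX_ne_zero dlog_mul dlog_one)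
open Pool.Agent.Results.MP_f76cdc_ag.DivisibilityFails

variable {k : Type*} [Field k] [Algebra (ZMod 2) k]

lemma der_der (N : k[X]) : derivative (derivative N) = 0 := by
  have h := congrFun (factorial_smul_hasseDeriv (R := k) 2) N
  have h2 := two_poly k
  simp only [Function.iterate_succ, Function.iterate_zero, Function.comp_apply, id_eq] at h
  have h3 : ((Nat.factorial 2 : ℕ) : k[X]) = 0 := by
    rw [Nat.factorial_two]
    exact_mod_cast h2
  rw [← h, LinearMap.smul_apply, nsmul_eq_mul, h3, zero_mul]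

omit [Algebra (ZMod 2) k] in
lemma num_const [IsAlgClosed k] (g : RatFunc k) (hg : g ≠ 0) (h : ∀ a : k, ordAt a g ≤ 0) :
    ∃ c : k, c ≠ 0 ∧ g.num = C c := by
  have hn : g.num ≠ 0 := RatFunc.num_ne_zero hg
  have hd : g.denom ≠ 0 := RatFunc.denom_ne_zero g
  have hdeg : g.num.degree = 0 := by
    by_contra hdeg
    obtain ⟨a, ha⟩ := IsAlgClosed.exists_root g.num hdeg
    have h1 : 0 < g.num.rootMultiplicity a := (rootMultiplicity_pos hn).2 ha
    have h2 := h a
    rw [ordAt] at h2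
    have h3 : 0 < g.denom.rootMultiplicity a := by omega
    have h4 : g.denom.IsRoot a := (rootMultiplicity_pos hd).1 h3
    obtain ⟨u, v, huv⟩ := g.isCoprime_num_denom
    have h5 := congrArg (eval a) huv
    rw [eval_add, eval_mul, eval_mul, ha, h4, mul_zero, mul_zero, add_zero, eval_one] at h5
    exact zero_ne_one h5
  have h2 := eq_C_of_degree_eq_zero hdeg
  refine ⟨_, ?_, h2⟩
  intro h3
  rw [h3, C_0] at h2
  exact hn h2

lemma two_dlog (f : RatFunc k) : dlog f + dlog f = 0 := by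
  rw [← two_smul (ZMod 2) (dlog f)]
  have : (2 : ZMod 2) = 0 := by decide
  rw [this, zero_smul]

lemma exists_P [IsAlgClosed k] (m : ℕ) (ω : Ω[RatFunc k⁄k]) (hlog : IsLogarithmic ω)
    (hzero : OnlyZeroAtInfty ω ((m : ℤ) - 1)) :
    ∃ P : k[X], derivative P = 1 ∧ P.natDegree = m + 1 ∧
      ω = (algebraMap k[X] (RatFunc k) P)⁻¹ • dX k := by
  obtain ⟨f, hf, hω⟩ := hlog
  obtain ⟨g, hg, hω2, hord, hinf⟩ := hzero
  set φ := algebraMap k[X] (RatFunc k) with hφ
  have hφ0 : ∀ Q : k[X], Q ≠ 0 → φ Q ≠ 0 := by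
    intro Q hQ
    rw [hφ, ne_eq, FaithfulSMul.algebraMap_eq_zero_iff]
    exact hQ
  have hφi : Function.Injective φ := FaithfulSMul.algebraMap_injective k[X] (RatFunc k)
  have hA : f.num ≠ 0 := RatFunc.num_ne_zero hf
  have hB : f.denom ≠ 0 := RatFunc.denom_ne_zero f
  -- `ω = dlog N` with a polynomial `N`
  set N := f.num * f.denom with hN
  have hN0 : N ≠ 0 := mul_ne_zero hA hB
  have hfB : φ f.num = f * φ f.denom := by
    have h1 := RatFunc.num_div_denom f
    have h2 := hφ0 _ hB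
    rw [← hφ] at h1
    rw [div_eq_iff h2] at h1
    exact h1
  have hlogN : ω = dlog (φ N) := by
    have h1 : φ N = f * φ f.denom * φ f.denom := by
      rw [hN, map_mul, hfB]
    rw [h1, dlog_mul _ _ (mul_ne_zero hf (hφ0 _ hB)) (hφ0 _ hB), dlog_mul _ _ hf (hφ0 _ hB),
      add_assoc, two_dlog, add_zero, hω]
    rfl
  clear_value N
  have hgN : g * φ N = φ (derivative N) := by
    have h1 : g • dX k = ((φ N)⁻¹ * φ (derivative N)) • dX k := by
      rw [mul_smul, hφ, ← D_poly, ← hφ]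
      have h2 : g • dX k = ω := hω2.symm
      rw [h2, hlogN]
      rfl
    have h2 : (g - (φ N)⁻¹ * φ (derivative N)) • dX k = 0 := by
      rw [sub_smul, h1, sub_self]
    rcases smul_eq_zero.1 h2 with h3 | h3
    · have h4 := hφ0 _ hN0
      have h5 : g = (φ N)⁻¹ * φ (derivative N) := sub_eq_zero.1 h3
      rw [h5]
      field_simp
    · exact absurd h3 dX_ne_zero
  obtain ⟨c, hc, hnum⟩ := num_const g hg hord
  set Q := g.denom with hQ
  have hQ0 : Q ≠ 0 := RatFunc.denom_ne_zero g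
  have hgQ : φ (C c) = g * φ Q := by
    have h1 := RatFunc.num_div_denom g
    have h2 := hφ0 _ hQ0
    rw [← hφ, hnum, ← hQ, div_eq_iff h2] at h1
    exact h1
  have hdegQ : Q.natDegree = m + 1 := by
    have h1 : ordInfty g = Q.natDegree := by
      rw [ordInfty, RatFunc.intDegree, hnum, natDegree_C, ← hQ]
      simp
    rw [h1] at hinf
    omega
  have hcN : C c * N = Q * derivative N := by
    apply hφi
    rw [map_mul, map_mul, hgQ, ← hgN]
    ring
  have hN' : derivative N ≠ 0 := by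
    intro h0
    rw [h0, map_zero] at hgN
    exact mul_ne_zero hg (hφ0 _ hN0) hgN
  have hQ' : derivative Q = C c := by
    have h1 := congrArg derivative hcN
    rw [derivative_C_mul, derivative_mul, der_der, mul_zero, add_zero] at h1
    exact (mul_right_cancel₀ hN' h1).symm
  refine ⟨C c⁻¹ * Q, ?_, ?_, ?_⟩
  · rw [derivative_C_mul, hQ', ← C_mul, inv_mul_cancel₀ hc, C_1]
  · rw [natDegree_C_mul (inv_ne_zero hc), hdegQ]
  · have h2 := hφ0 _ hQ0
    have h3 : φ (C c) ≠ 0 := hφ0 _ (C_ne_zero.2 hc)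
    have h1 : g = (φ (C c⁻¹ * Q))⁻¹ := by
      have h4 : φ (C c⁻¹) = (φ (C c))⁻¹ := by
        apply eq_inv_of_mul_eq_one_left
        rw [← map_mul, ← C_mul, inv_mul_cancel₀ hc, C_1, map_one]
      rw [map_mul, h4, hgQ]
      have h5 : g * φ Q ≠ 0 := mul_ne_zero hg h2
      field_simp
    rw [← h1]
    exact hω2

omit [Algebra (ZMod 2) k] in
lemma card_roots_eq [IsAlgClosed k] (P : k[X]) (h : derivative P = 1) [DecidableEq k] :
    P.roots.toFinset.card = P.natDegree := by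
  have hs : P.Separable := by
    rw [Polynomial.Separable, h]
    exact isCoprime_one_right
  rw [Multiset.toFinset_card_of_nodup (nodup_roots hs)]
  exact (IsAlgClosed.splits P).natDegree_eq_card_roots.symm

omit [Algebra (ZMod 2) k] in
lemma ne_zero_of_der (P : k[X]) (h : derivative P = 1) : P ≠ 0 := by
  rintro rfl
  rw [derivative_zero] at h
  exact zero_ne_one h

lemma roots_symm (P1 P2 P3 : k[X]) (h1 : derivative P1 = 1) (h2 : derivative P2 = 1)
    (h3 : derivative P3 = 1) (h : P3 * (P1 + P2) = P1 * P2) (x : k) :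
    P3.IsRoot x ↔ (P1.IsRoot x ∧ ¬ P2.IsRoot x) ∨ (P2.IsRoot x ∧ ¬ P1.IsRoot x) := by
  have hchar : (2 : k) = 0 := by exact_mod_cast W515.LD.cast_p (p := 2) k
  have he := congrArg (eval x) h
  simp only [eval_mul, eval_add] at he
  simp only [IsRoot.def]
  -- the three polynomials have no common zero
  have hnot : ¬ (P1.eval x = 0 ∧ P2.eval x = 0 ∧ P3.eval x = 0) := by
    rintro ⟨e1, e2, e3⟩
    obtain ⟨A1, hA1⟩ := dvd_iff_isRoot.2 e1
    obtain ⟨A2, hA2⟩ := dvd_iff_isRoot.2 e2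
    obtain ⟨A3, hA3⟩ := dvd_iff_isRoot.2 e3
    have hA : ∀ P A : k[X], derivative P = 1 → P = (X - C x) * A → eval x A = 1 := by
      intro P A hP hPA
      rw [hPA, derivative_mul, derivative_sub, derivative_X, derivative_C] at hP
      have h5 := congrArg (eval x) hP
      simp only [sub_zero, one_mul, eval_add, eval_mul, eval_sub, eval_X, eval_C, sub_self,
        zero_mul, add_zero, eval_one] at h5
      exact h5
    have g1 := hA _ _ h1 hA1
    have g2 := hA _ _ h2 hA2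
    have g3 := hA _ _ h3 hA3
    have hX : (X - C x : k[X]) ≠ 0 := X_sub_C_ne_zero x
    have h4 : A3 * (A1 + A2) = A1 * A2 := by
      apply mul_left_cancel₀ (mul_ne_zero hX hX)
      rw [hA1, hA2, hA3] at h
      linear_combination h
    have h5 := congrArg (eval x) h4
    rw [eval_mul, eval_mul, eval_add, g1, g2, g3] at h5
    have h6 : (1 : k) = 0 := by linear_combination -h5 + hchar
    exact one_ne_zero h6
  constructor
  · intro e3
    rw [e3, zero_mul] at he
    rcases mul_eq_zero.1 he.symm with e1 | e2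
    · left
      exact ⟨e1, fun e2 => hnot ⟨e1, e2, e3⟩⟩
    · right
      exact ⟨e2, fun e1 => hnot ⟨e1, e2, e3⟩⟩
  · rintro (⟨e1, e2⟩ | ⟨e2, e1⟩)
    · rw [e1, zero_add, zero_mul] at he
      rcases mul_eq_zero.1 he with e3 | e3
      · exact e3
      · exact absurd e3 e2
    · rw [e2, add_zero, mul_zero] at he
      rcases mul_eq_zero.1 he with e3 | e3
      · exact e3
      · exact absurd e3 e1

lemma card_symm {α : Type*} [DecidableEq α] (A B E : Finset α)
    (h : ∀ x, x ∈ E ↔ (x ∈ A ∧ x ∉ B) ∨ (x ∈ B ∧ x ∉ A)) :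
    E.card + 2 * (A ∩ B).card = A.card + B.card := by
  have h1 : E = (A \ B) ∪ (B \ A) := by
    ext x
    rw [h x, Finset.mem_union, Finset.mem_sdiff, Finset.mem_sdiff]
  have h2 : Disjoint (A \ B) (B \ A) := by
    rw [Finset.disjoint_left]
    intro x hx hy
    exact (Finset.mem_sdiff.1 hy).2 (Finset.mem_sdiff.1 hx).1
  rw [h1, Finset.card_union_of_disjoint h2]
  have h3 := Finset.card_sdiff_add_card_inter A B
  have h4 := Finset.card_sdiff_add_card_inter B A
  rw [Finset.inter_comm B A] at h4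
  omega

lemma count {α : Type*} [DecidableEq α] (M : ℕ) (S1 S2 S3 S12 S13 S23 S123 : Finset α)
    (h1 : S1.card = M) (h2 : S2.card = M) (h3 : S3.card = M) (h12 : S12.card = M)
    (h13 : S13.card = M) (h23 : S23.card = M) (h123 : S123.card = M)
    (e12 : ∀ x, x ∈ S12 ↔ (x ∈ S1 ∧ x ∉ S2) ∨ (x ∈ S2 ∧ x ∉ S1))
    (e13 : ∀ x, x ∈ S13 ↔ (x ∈ S1 ∧ x ∉ S3) ∨ (x ∈ S3 ∧ x ∉ S1))
    (e23 : ∀ x, x ∈ S23 ↔ (x ∈ S2 ∧ x ∉ S3) ∨ (x ∈ S3 ∧ x ∉ S2))
    (e123 : ∀ x, x ∈ S123 ↔ (x ∈ S12 ∧ x ∉ S3) ∨ (x ∈ S3 ∧ x ∉ S12)) : 4 ∣ M := by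
  have a12 := card_symm S1 S2 S12 e12
  have a13 := card_symm S1 S3 S13 e13
  have a23 := card_symm S2 S3 S23 e23
  have a123 := card_symm S12 S3 S123 e123
  have b := card_symm (S1 ∩ S3) (S2 ∩ S3) (S12 ∩ S3) (by
    intro x
    simp only [Finset.mem_inter, e12]
    tauto)
  have c : S1 ∩ S3 ∩ (S2 ∩ S3) = S1 ∩ S2 ∩ S3 := by
    ext x
    simp only [Finset.mem_inter]
    tauto
  rw [c] at b
  refine ⟨(S1 ∩ S2 ∩ S3).card, ?_⟩
  omega

/-- the divisibility condition for `n = 3` -/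
theorem dvd_three [IsAlgClosed k] (m : ℕ) (V : Submodule (ZMod 2) (Ω[RatFunc k⁄k]))
    (hV : IsSpaceL 2 k m 3 V) : 4 ∣ m + 1 := by
  classical
  have hfin : Module.Finite (ZMod 2) V := by
    apply Module.finite_of_finrank_pos
    rw [hV.dim]
    norm_num
  let e : (ZMod 2 × ZMod 2 × ZMod 2) ≃ₗ[ZMod 2] V := LinearEquiv.ofFinrankEq _ _ (by
    rw [hV.dim]
    simp)
  have hne : ∀ a : ZMod 2 × ZMod 2 × ZMod 2, a ≠ 0 → (e a : Ω[RatFunc k⁄k]) ≠ 0 := by
    intro a ha h
    apply ha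
    apply e.injective
    rw [map_zero]
    exact Subtype.ext h
  have hex : ∀ a : ZMod 2 × ZMod 2 × ZMod 2, ∃ P : k[X], a ≠ 0 → (derivative P = 1 ∧
      P.natDegree = m + 1 ∧ (e a : Ω[RatFunc k⁄k]) = (algebraMap k[X] (RatFunc k) P)⁻¹ • dX k) := by
    intro a
    by_cases ha : a = 0
    · exact ⟨0, fun h => absurd ha h⟩
    · obtain ⟨P, hP⟩ := exists_P m (e a : Ω[RatFunc k⁄k]) (hV.log _ (e a).2 (hne a ha))
        (hV.zero _ (e a).2 (hne a ha))
      exact ⟨P, fun _ => hP⟩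
  choose P hP using hex
  have hadd : ∀ a b : ZMod 2 × ZMod 2 × ZMod 2, a ≠ 0 → b ≠ 0 → a + b ≠ 0 → ∀ x,
      x ∈ (P (a + b)).roots.toFinset ↔ (x ∈ (P a).roots.toFinset ∧ x ∉ (P b).roots.toFinset) ∨
        (x ∈ (P b).roots.toFinset ∧ x ∉ (P a).roots.toFinset) := by
    intro a b ha hb hab x
    obtain ⟨d1, -, w1⟩ := hP a ha
    obtain ⟨d2, -, w2⟩ := hP b hb
    obtain ⟨d3, -, w3⟩ := hP (a + b) hab
    have n1 := ne_zero_of_der _ d1
    have n2 := ne_zero_of_der _ d2
    have n3 := ne_zero_of_der _ d3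
    rw [Multiset.mem_toFinset, Multiset.mem_toFinset, Multiset.mem_toFinset, mem_roots n1,
      mem_roots n2, mem_roots n3]
    apply roots_symm _ _ _ d1 d2 d3
    have hφ0 : ∀ Q : k[X], Q ≠ 0 → algebraMap k[X] (RatFunc k) Q ≠ 0 := by
      intro Q hQ
      rw [ne_eq, FaithfulSMul.algebraMap_eq_zero_iff]
      exact hQ
    have m1 := hφ0 _ n1
    have m2 := hφ0 _ n2
    have m3 := hφ0 _ n3
    have hs : (e (a + b) : Ω[RatFunc k⁄k]) = e a + e b := by
      rw [map_add]
      rfl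
    rw [w1, w2, w3, ← add_smul] at hs
    have hs2 : ((algebraMap k[X] (RatFunc k) (P (a + b)))⁻¹ -
        ((algebraMap k[X] (RatFunc k) (P a))⁻¹ + (algebraMap k[X] (RatFunc k) (P b))⁻¹)) • dX k =
        0 := by
      rw [sub_smul, hs, sub_self]
    rcases smul_eq_zero.1 hs2 with h3 | h3
    · apply FaithfulSMul.algebraMap_injective k[X] (RatFunc k)
      rw [map_mul, map_mul, map_add]
      have h4 := sub_eq_zero.1 h3
      field_simp at h4
      linear_combination -h4
    · exact absurd h3 dX_ne_zero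
  have hcard : ∀ a : ZMod 2 × ZMod 2 × ZMod 2, a ≠ 0 → (P a).roots.toFinset.card = m + 1 := by
    intro a ha
    rw [card_roots_eq _ (hP a ha).1, (hP a ha).2.1]
  have g100 : ((1, 0, 0) : ZMod 2 × ZMod 2 × ZMod 2) ≠ 0 := by decide
  have g010 : ((0, 1, 0) : ZMod 2 × ZMod 2 × ZMod 2) ≠ 0 := by decide
  have g001 : ((0, 0, 1) : ZMod 2 × ZMod 2 × ZMod 2) ≠ 0 := by decide
  have g110 : ((1, 0, 0) + (0, 1, 0) : ZMod 2 × ZMod 2 × ZMod 2) ≠ 0 := by decide
  have g101 : ((1, 0, 0) + (0, 0, 1) : ZMod 2 × ZMod 2 × ZMod 2) ≠ 0 := by decide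
  have g011 : ((0, 1, 0) + (0, 0, 1) : ZMod 2 × ZMod 2 × ZMod 2) ≠ 0 := by decide
  have g111 : ((1, 0, 0) + (0, 1, 0) + (0, 0, 1) : ZMod 2 × ZMod 2 × ZMod 2) ≠ 0 := by decide
  exact count (m + 1) _ _ _ _ _ _ _ (hcard _ g100) (hcard _ g010) (hcard _ g001) (hcard _ g110)
    (hcard _ g101) (hcard _ g011) (hcard _ g111) (hadd _ _ g100 g010 g110)
    (hadd _ _ g100 g001 g101) (hadd _ _ g010 g001 g011) (hadd _ _ g110 g001 g111)

end Pool.Agent.W2helper79.L2
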