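import Mathlib
import Pool.Agent.W2helper79.L2.Basis

/-!
# The field with eight elements

The combinations of three polynomials `A`, `B`, `E` with the vectors `(c, c ^ 2, c ^ 4)`, where `c`
runs through the field with eight elements.
-/

set_option autoImplicit false

namespace Pool.Agent.W2helper79.L2

open Polynomial
open Pool.Agent.W515.LD (dX dlog D_poly dX_ne_zero dlog_mul)

variable {k : Type*} [Field k] [Algebra (ZMod 2) k]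

/-- the determinant of the three polynomials -/
noncomputable def DD (A B E : k[X]) : k[X] :=
  E ^ 2 * (B * derivative E + E * derivative B) + A ^ 2 * (A * derivative E + E * derivative A) +
    B ^ 2 * (A * derivative B + B * derivative A)

lemma SS3_comb (A B E t : k[X]) (ht : t ^ 3 = t + 1) (htd : derivative t = 0) :
    SS3 (A + B + E) (t * A + t ^ 2 * B + (t ^ 2 + t) * E) (t ^ 2 * A + (t ^ 2 + t) * B + t * E) =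
      DD A B E := by
  have h2 := two_poly k
  have htd2 : derivative (t ^ 2) = 0 := by
    rw [derivative_pow, htd, mul_zero]
  rw [SS3, DD]
  simp only [derivative_mul, derivative_add, htd, htd2, zero_mul, zero_add, add_zero]
  generalize derivative A = a
  generalize derivative B = b
  generalize derivative E = c
  linear_combination (
    38*A*B*E*a + 28*A*B*E*a*t + 18*A*B*E*a*t^2 + 6*A*B*E*a*t^3 + 50*A*B*E*b + 36*A*B*E*b*t +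
    24*A*B*E*b*t^2 + 8*A*B*E*b*t^3 + 46*A*B*E*c + 34*A*B*E*c*t + 20*A*B*E*c*t^2 +
    6*A*B*E*c*t^3 + 20*A*B^2*a + 14*A*B^2*a*t + 10*A*B^2*a*t^2 + 4*A*B^2*a*t^3 + 25*A*B^2*b
    + 19*A*B^2*b*t + 12*A*B^2*b*t^2 + 7*A*B^2*b*t^3 + 28*A*B^2*c + 20*A*B^2*c*t +
    13*A*B^2*c*t^2 + 6*A*B^2*c*t^3 + 18*A*E^2*a + 14*A*E^2*a*t + 8*A*E^2*a*t^2 +
    2*A*E^2*a*t^3 + 26*A*E^2*b + 18*A*E^2*b*t + 11*A*E^2*b*t^2 + 2*A*E^2*b*t^3 + 20*A*E^2*c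
    + 14*A*E^2*c*t + 7*A*E^2*c*t^2 + A*E^2*c*t^3 + 16*A^2*B*a + 8*A^2*B*a*t + 9*A^2*B*a*t^2
    + A^2*B*a*t^3 + 18*A^2*B*b + 14*A^2*B*b*t + 8*A^2*B*b*t^2 + 4*A^2*B*b*t^3 + 20*A^2*B*c +
    14*A^2*B*c*t + 9*A^2*B*c*t^2 + 4*A^2*B*c*t^3 + 13*A^2*E*a + 11*A^2*E*a*t + 6*A^2*E*a*t^2
    + A^2*E*a*t^3 + 18*A^2*E*b + 14*A^2*E*b*t + 7*A^2*E*b*t^2 + 2*A^2*E*b*t^3 + 16*A^2*E*c +
    12*A^2*E*c*t + 6*A^2*E*c*t^2 + 2*A^2*E*c*t^3 + 4*A^3*a + 2*A^3*a*t + 2*A^3*a*t^2 +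
    4*A^3*b + 4*A^3*b*t + A^3*b*t^2 + A^3*b*t^3 + 5*A^3*c + 3*A^3*c*t + 2*A^3*c*t^2 +
    A^3*c*t^3 + 24*B*E^2*a + 20*B*E^2*a*t + 11*B*E^2*a*t^2 + 4*B*E^2*a*t^3 + 32*B*E^2*b +
    26*B*E^2*b*t + 16*B*E^2*b*t^2 + 4*B*E^2*b*t^3 + 27*B*E^2*c + 21*B*E^2*c*t +
    12*B*E^2*c*t^2 + B*E^2*c*t^3 + 26*B^2*E*a + 20*B^2*E*a*t + 13*B^2*E*a*t^2 +
    6*B^2*E*a*t^3 + 34*B^2*E*b + 24*B^2*E*b*t + 19*B^2*E*b*t^2 + 7*B^2*E*b*t^3 + 34*B^2*E*c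
    + 22*B^2*E*c*t + 18*B^2*E*c*t^2 + 4*B^2*E*c*t^3 + 9*B^3*a + 7*B^3*a*t + 4*B^3*a*t^2 +
    3*B^3*a*t^3 + 12*B^3*b + 8*B^3*b*t + 6*B^3*b*t^2 + 4*B^3*b*t^3 + 14*B^3*c + 8*B^3*c*t +
    7*B^3*c*t^2 + 3*B^3*c*t^3 + 8*E^3*a + 6*E^3*a*t + 3*E^3*a*t^2 + E^3*a*t^3 + 11*E^3*b +
    9*E^3*b*t + 4*E^3*b*t^2 + E^3*b*t^3 + 8*E^3*c + 6*E^3*c*t + 2*E^3*c*t^2) * ht + (
    19*A*B*E*a + 33*A*B*E*a*t + 25*A*B*E*a*t^2 + 25*A*B*E*b + 43*A*B*E*b*t + 32*A*B*E*b*t^2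
    + 23*A*B*E*c + 40*A*B*E*c*t + 31*A*B*E*c*t^2 + 10*A*B^2*a + 17*A*B^2*a*t +
    13*A*B^2*a*t^2 + 12*A*B^2*b + 22*A*B^2*b*t + 16*A*B^2*b*t^2 + 14*A*B^2*c + 24*A*B^2*c*t
    + 18*A*B^2*c*t^2 + 9*A*E^2*a + 16*A*E^2*a*t + 12*A*E^2*a*t^2 + 13*A*E^2*b + 22*A*E^2*b*t
    + 16*A*E^2*b*t^2 + 10*A*E^2*c + 17*A*E^2*c*t + 13*A*E^2*c*t^2 + 8*A^2*B*a + 12*A^2*B*a*t
    + 9*A^2*B*a*t^2 + 9*A^2*B*b + 16*A^2*B*b*t + 12*A^2*B*b*t^2 + 10*A^2*B*c + 17*A^2*B*c*t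
    + 13*A^2*B*c*t^2 + 6*A^2*E*a + 12*A^2*E*a*t + 9*A^2*E*a*t^2 + 9*A^2*E*b + 16*A^2*E*b*t +
    12*A^2*E*b*t^2 + 8*A^2*E*c + 14*A^2*E*c*t + 11*A^2*E*c*t^2 + 2*A^3*a + 3*A^3*a*t +
    2*A^3*a*t^2 + 2*A^3*b + 4*A^3*b*t + 3*A^3*b*t^2 + 2*A^3*c + 4*A^3*c*t + 3*A^3*c*t^2 +
    12*B*E^2*a + 22*B*E^2*a*t + 17*B*E^2*a*t^2 + 16*B*E^2*b + 29*B*E^2*b*t + 22*B*E^2*b*t^2
    + 13*B*E^2*c + 24*B*E^2*c*t + 19*B*E^2*c*t^2 + 13*B^2*E*a + 23*B^2*E*a*t +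
    18*B^2*E*a*t^2 + 17*B^2*E*b + 29*B^2*E*b*t + 22*B^2*E*b*t^2 + 17*B^2*E*c + 28*B^2*E*c*t
    + 22*B^2*E*c*t^2 + 4*B^3*a + 8*B^3*a*t + 6*B^3*a*t^2 + 6*B^3*b + 10*B^3*b*t +
    7*B^3*b*t^2 + 7*B^3*c + 11*B^3*c*t + 8*B^3*c*t^2 + 4*E^3*a + 7*E^3*a*t + 5*E^3*a*t^2 +
    5*E^3*b + 10*E^3*b*t + 7*E^3*b*t^2 + 4*E^3*c + 7*E^3*c*t + 5*E^3*c*t^2) * h2

omit [Algebra (ZMod 2) k] in
lemma natDegree_comb (A B E : k[X]) (N : ℕ) (hA : A.natDegree = N) (hB : B.natDegree < N)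
    (hE : E.natDegree < N) (F : k[X]) (c a b : k) (hc : c ≠ 0)
    (hF : F = C c * A + (C a * B + C b * E)) : F.natDegree = N := by
  have h1 : (C c * A).natDegree = N := by
    rw [natDegree_C_mul hc, hA]
  rw [hF, natDegree_add_eq_left_of_natDegree_lt, h1]
  rw [h1]
  apply lt_of_le_of_lt (natDegree_add_le _ _)
  apply max_lt
  · exact lt_of_le_of_lt (natDegree_C_mul_le _ _) hB
  · exact lt_of_le_of_lt (natDegree_C_mul_le _ _) hE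

/-- admissible degrees -/
def Adm (k : Type*) [Field k] (N : ℕ) : Prop :=
  ∃ A B E : k[X], A.natDegree = N ∧ B.natDegree < N ∧ E.natDegree < N ∧
    E ^ 2 * (B * derivative E + E * derivative B) + A ^ 2 * (A * derivative E + E * derivative A) +
    B ^ 2 * (A * derivative B + B * derivative A) = 1

lemma exists_theta (k : Type*) [Field k] [IsAlgClosed k] : ∃ t : k, t ^ 3 = t + 1 := by
  have hd : (X ^ 3 - X - 1 : k[X]).degree = (3 : ℕ) := by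
    compute_degree!
  obtain ⟨t, ht⟩ := IsAlgClosed.exists_root (X ^ 3 - X - 1 : k[X]) (by rw [hd]; norm_num)
  refine ⟨t, ?_⟩
  rw [IsRoot, eval_sub, eval_sub, eval_pow, eval_X, eval_one] at ht
  linear_combination ht

lemma exists_form [IsAlgClosed k] (N : ℕ) (hN : Adm k N) :
    ∃ F : (ZMod 2 × ZMod 2 × ZMod 2) →ₗ[ZMod 2] Ω[RatFunc k⁄k],
      ∀ a : ZMod 2 × ZMod 2 × ZMod 2, a ≠ 0 →
      ∃ P : k[X], P ≠ 0 ∧ P.natDegree = 4 * N ∧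
      F a = (algebraMap k[X] (RatFunc k) P)⁻¹ • dX k ∧
      F a = dlog (algebraMap k[X] (RatFunc k) P) := by
  obtain ⟨A, B, E, hA, hB, hE, hD⟩ := hN
  obtain ⟨t, ht⟩ := exists_theta k
  have h2 : (2 : k) = 0 := by exact_mod_cast W515.LD.cast_p (p := 2) k
  have ht0 : t ≠ 0 := by
    rintro rfl
    simp at ht
  have ht1 : 1 + t ≠ 0 := by
    intro h
    have : t ^ 3 = 0 := by rw [ht]; linear_combination h
    exact ht0 (pow_eq_zero_iff (by norm_num) |>.1 this)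
  have ht2 : 1 + t ^ 2 ≠ 0 := by
    intro h
    have : (1 + t) ^ 2 = 0 := by linear_combination h + t * h2
    exact ht1 (pow_eq_zero_iff (by norm_num) |>.1 this)
  have ht3 : t + t ^ 2 ≠ 0 := by
    intro h
    have : t * (1 + t) = 0 := by linear_combination h
    exact (mul_ne_zero ht0 ht1) this
  have ht4 : 1 + t + t ^ 2 ≠ 0 := by
    intro h
    apply ht0
    linear_combination -ht + (t - 1) * h
  have ht5 : t ^ 2 ≠ 0 := pow_ne_zero _ ht0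
  have hCt : (C t : k[X]) ^ 3 = C t + 1 := by
    rw [← C_pow, ht, C_add, C_1]
  have hS := SS3_comb A B E (C t) hCt derivative_C
  rw [DD, hD] at hS
  have hN0 : 0 < N := by omega
  have hnd := natDegree_comb A B E N hA hB hE
  refine ⟨form3 _ _ _, fun a ha => form3_eq _ _ _ N hN0 hS ?_ ?_ ?_ ?_ ?_ ?_ ?_ a ha⟩
  · exact hnd _ 1 1 1 one_ne_zero (by rw [C_1]; ring)
  · exact hnd _ t (t ^ 2) (t ^ 2 + t) ht0 (by simp only [C_add, C_pow]; ring)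
  · exact hnd _ (t ^ 2) (t ^ 2 + t) t ht5 (by simp only [C_add, C_pow]; ring)
  · exact hnd _ (1 + t) (1 + t ^ 2) (1 + (t ^ 2 + t)) ht1
      (by simp only [C_add, C_pow, C_1]; ring)
  · exact hnd _ (1 + t ^ 2) (1 + (t ^ 2 + t)) (1 + t) ht2
      (by simp only [C_add, C_pow, C_1]; ring)
  · exact hnd _ (t + t ^ 2) (t ^ 2 + (t ^ 2 + t)) ((t ^ 2 + t) + t) ht3
      (by simp only [C_add, C_pow]; ring)
  · exact hnd _ (1 + t + t ^ 2) (1 + t ^ 2 + (t ^ 2 + t)) (1 + (t ^ 2 + t) + t) ht4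
      (by simp only [C_add, C_pow, C_1]; ring)

end Pool.Agent.W2helper79.L2
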