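import Mathlib
import Pool.Agent.W2helper79.L2.Theta

/-!
# Every positive degree is admissible

The polynomials `A = z Y2 ^ 2`, `B = 1 + z Y0 ^ 2`, `E = z Y1 ^ 2`, where
`(1 + z Y0 ^ 2) Y2 + z Y1 ^ 3 = 1`, and the compositions with `z ^ 2 + z`.
-/

set_option autoImplicit false

namespace Pool.Agent.W2helper79.L2

open Polynomial

variable {k : Type*} [Field k] [Algebra (ZMod 2) k]

omit [Algebra (ZMod 2) k] in
lemma C_two (k : Type*) [Field k] : C ((2 : ℕ) : k) = (2 : k[X]) := by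
  rw [map_natCast]
  norm_num

lemma adm_comp (N : ℕ) (h : Adm k N) : Adm k (N * 2) := by
  obtain ⟨A, B, E, hA, hB, hE, hD⟩ := h
  have h2 := two_poly k
  have hd : (X ^ 2 + X : k[X]).natDegree = 2 := by
    compute_degree!
  have hder : derivative (X ^ 2 + X : k[X]) = 1 := by
    rw [derivative_add, derivative_X_pow, derivative_X]
    have : C ((2 : ℕ) : k) = (2 : k[X]) := C_two k
    rw [this, h2]
    ring
  refine ⟨A.comp (X ^ 2 + X), B.comp (X ^ 2 + X), E.comp (X ^ 2 + X), ?_, ?_, ?_, ?_⟩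
  · rw [natDegree_comp, hA, hd]
  · rw [natDegree_comp, hd]
    omega
  · rw [natDegree_comp, hd]
    omega
  · have h3 := congrArg (fun P => P.comp (X ^ 2 + X : k[X])) hD
    simp only [add_comp, mul_comp, pow_comp, one_comp] at h3
    simp only [derivative_comp, hder, one_mul]
    exact h3

lemma adm_fam (Y0 Y1 Y2 : k[X]) (h : (1 + X * Y0 ^ 2) * Y2 + X * Y1 ^ 3 = 1)
    (h0 : Y0.natDegree < Y2.natDegree) (h1 : Y1.natDegree < Y2.natDegree) :
    Adm k (1 + 2 * Y2.natDegree) := by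
  have h2 := two_poly k
  have hY2 : Y2 ≠ 0 := by
    rintro rfl
    simp at h0
  have hdsq : ∀ Y : k[X], derivative (X * Y ^ 2) = Y ^ 2 := by
    intro Y
    rw [derivative_mul, derivative_X, derivative_pow]
    have : C ((2 : ℕ) : k) = (2 : k[X]) := C_two k
    rw [this, h2]
    ring
  have hdeg : ∀ Y : k[X], (X * Y ^ 2).natDegree ≤ 1 + 2 * Y.natDegree := by
    intro Y
    apply natDegree_mul_le.trans
    apply add_le_add natDegree_X_le
    exact natDegree_pow_le
  refine ⟨X * Y2 ^ 2, 1 + X * Y0 ^ 2, X * Y1 ^ 2, ?_, ?_, ?_, ?_⟩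
  · rw [natDegree_mul X_ne_zero (pow_ne_zero _ hY2), natDegree_X, natDegree_pow]
  · have h3 := natDegree_add_le (1 : k[X]) (X * Y0 ^ 2)
    rw [natDegree_one] at h3
    have h4 := hdeg Y0
    apply lt_of_le_of_lt h3
    apply max_lt
    · omega
    · omega
  · have h4 := hdeg Y1
    omega
  · rw [derivative_add, hdsq, hdsq, hdsq, derivative_one, zero_add]
    linear_combination ((1 + X * Y0 ^ 2) * Y2 + X * Y1 ^ 3 + 1) * h + (
      X*Y0^2*Y2^2 - X*Y1^3*Y2 - X^2*Y0^2*Y1^3*Y2 + 2*X^2*Y0^4*Y2^2 + X^3*Y0^2*Y1^6 + X^3*Y0^6*Y2^2 + X^3*Y1^2*Y2^6) * h2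

omit [Algebra (ZMod 2) k] in
lemma adm_one : Adm k 1 := by
  refine ⟨X, 1, 0, natDegree_X, ?_, ?_, ?_⟩
  · rw [natDegree_one]
    norm_num
  · rw [natDegree_zero]
    norm_num
  · simp

lemma adm_five : Adm k 5 := by
  have h2 := two_poly k
  have hm : ∀ m : ℕ, C ((m : ℕ) : k) = (m : k[X]) := fun m => map_natCast _ _
  have hA : derivative (X ^ 5 + X ^ 2 + X : k[X]) = 5 * X ^ 4 + 2 * X + 1 := by
    rw [derivative_add, derivative_add, derivative_X_pow, derivative_X_pow, derivative_X, hm, hm]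
    norm_num
  have hB : derivative (X ^ 3 + X : k[X]) = 3 * X ^ 2 + 1 := by
    rw [derivative_add, derivative_X_pow, derivative_X, hm]
    norm_num
  have hE : derivative (X ^ 3 + 1 : k[X]) = 3 * X ^ 2 := by
    rw [derivative_add, derivative_X_pow, derivative_one, hm]
    norm_num
  refine ⟨X ^ 5 + X ^ 2 + X, X ^ 3 + X, X ^ 3 + 1, ?_, ?_, ?_, ?_⟩
  · compute_degree!
  · have : (X ^ 3 + X : k[X]).natDegree = 3 := by compute_degree!
    rw [this]
    norm_num
  · have : (X ^ 3 + 1 : k[X]).natDegree = 3 := by compute_degree!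
    rw [this]
    norm_num
  · rw [hA, hB, hE]
    linear_combination (2*X^2 + 6*X^3 + 4*X^4 + 13*X^5 + 20*X^6 + 23*X^7 + 21*X^8 + 22*X^9 +
      25*X^10 + 29*X^11 + 14*X^13 + 13*X^14 + 4*X^17) * h2

lemma adm_6h1 (h : ℕ) : Adm k (6 * h + 1) := by
  have h2 := two_poly k
  rcases Nat.eq_zero_or_pos h with rfl | hh
  · exact adm_one
  · have hdeg : (∑ i ∈ Finset.range (3 * h + 1), (X : k[X]) ^ i).natDegree = 3 * h := by
      rw [Finset.sum_range_succ, natDegree_add_eq_right_of_natDegree_lt, natDegree_X_pow]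
      rw [natDegree_X_pow]
      apply lt_of_le_of_lt (natDegree_sum_le_of_forall_le (n := 3 * h - 1) _ _ ?_)
      · omega
      · intro i hi
        rw [natDegree_X_pow]
        have := Finset.mem_range.1 hi
        omega
    have key := adm_fam (k := k) 1 (X ^ h) (∑ i ∈ Finset.range (3 * h + 1), (X : k[X]) ^ i) ?_ ?_ ?_
    · rw [hdeg] at key
      have e : 1 + 2 * (3 * h) = 6 * h + 1 := by ring
      rw [← e]
      exact key
    · have hg := geom_sum_mul (X : k[X]) (3 * h + 1)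
      have e : X * (X ^ h) ^ 3 = (X : k[X]) ^ (3 * h + 1) := by ring
      rw [e]
      linear_combination hg + ((∑ i ∈ Finset.range (3 * h + 1), (X : k[X]) ^ i) +
        X ^ (3 * h + 1) - 1) * h2
    · rw [hdeg, natDegree_one]
      omega
    · rw [hdeg, natDegree_X_pow]
      omega

lemma adm_6h3 (h : ℕ) : Adm k (6 * h + 3) := by
  have h2 := two_poly k
  have hdeg : (1 + X ^ (3 * h + 1) : k[X]).natDegree = 3 * h + 1 := by
    rw [natDegree_add_eq_right_of_natDegree_lt, natDegree_X_pow]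
    rw [natDegree_X_pow, natDegree_one]
    omega
  have key := adm_fam (k := k) 0 (X ^ h) (1 + X ^ (3 * h + 1)) ?_ ?_ ?_
  · rw [hdeg] at key
    have e : 1 + 2 * (3 * h + 1) = 6 * h + 3 := by ring
    rw [← e]
    exact key
  · linear_combination (X ^ (3 * h + 1)) * h2
  · rw [hdeg, natDegree_zero]
    omega
  · rw [hdeg, natDegree_X_pow]
    omega

lemma adm_11 : Adm k 11 := by
  have h2 := two_poly k
  have hdeg : (1 + X ^ 5 : k[X]).natDegree = 5 := by compute_degree!
  have key := adm_fam (k := k) (X ^ 2) (X ^ 3) (1 + X ^ 5) ?_ ?_ ?_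
  · rw [hdeg] at key
    exact key
  · linear_combination (X ^ 5 + X ^ 10) * h2
  · rw [hdeg, natDegree_X_pow]
    norm_num
  · rw [hdeg, natDegree_X_pow]
    norm_num

lemma adm_17 : Adm k 17 := by
  have h2 := two_poly k
  have hdeg : (X ^ 8 + X ^ 7 + X ^ 5 + 1 : k[X]).natDegree = 8 := by compute_degree!
  have hdeg1 : (X ^ 2 + X ^ 3 + X ^ 4 : k[X]).natDegree = 4 := by compute_degree!
  have key := adm_fam (k := k) (X ^ 2) (X ^ 2 + X ^ 3 + X ^ 4) (X ^ 8 + X ^ 7 + X ^ 5 + 1) ?_ ?_ ?_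
  · rw [hdeg] at key
    exact key
  · linear_combination (X^5 + X^7 + 2*X^8 + 3*X^9 + 4*X^10 + 3*X^11 + 2*X^12 + X^13) * h2
  · rw [hdeg, natDegree_X_pow]
    norm_num
  · rw [hdeg, hdeg1]
    norm_num

lemma adm_23 (t : ℕ) : Adm k (6 * t + 23) := by
  have h2 := two_poly k
  have hw : (1 + X ^ 5 : k[X]).natDegree = 5 := by compute_degree!
  have hw0 : (1 + X ^ 5 : k[X]) ≠ 0 := by
    intro h
    rw [h, natDegree_zero] at hw
    norm_num at hw
  have hu : (X ^ t : k[X]).natDegree = t := natDegree_X_pow t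
  -- the last summand
  have hd4 : (X * (1 + X ^ 5) ^ 2 * (X ^ t) ^ 3 : k[X]).natDegree = 3 * t + 11 := by
    rw [natDegree_mul (mul_ne_zero X_ne_zero (pow_ne_zero _ hw0))
      (pow_ne_zero _ (pow_ne_zero _ X_ne_zero)), natDegree_mul X_ne_zero (pow_ne_zero _ hw0),
      natDegree_pow, natDegree_pow, hw, hu, natDegree_X]
    ring
  have hd1 : ((1 + X ^ 5) + X ^ 7 * X ^ t + X ^ 4 * (1 + X ^ 5) * (X ^ t) ^ 2 : k[X]).natDegree <
      3 * t + 11 := by
    apply lt_of_le_of_lt (natDegree_add_le _ _)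
    apply max_lt
    · apply lt_of_le_of_lt (natDegree_add_le _ _)
      apply max_lt
      · rw [hw]
        omega
      · apply lt_of_le_of_lt natDegree_mul_le
        rw [hu, natDegree_X_pow]
        omega
    · apply lt_of_le_of_lt natDegree_mul_le
      have h3 : (X ^ 4 * (1 + X ^ 5) : k[X]).natDegree ≤ 4 + 5 := by
        apply natDegree_mul_le.trans
        rw [hw, natDegree_X_pow]
      rw [natDegree_pow, hu]
      omega
  have hdeg : ((1 + X ^ 5) + X ^ 7 * X ^ t + X ^ 4 * (1 + X ^ 5) * (X ^ t) ^ 2 +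
      X * (1 + X ^ 5) ^ 2 * (X ^ t) ^ 3 : k[X]).natDegree = 3 * t + 11 := by
    rw [natDegree_add_eq_right_of_natDegree_lt, hd4]
    rw [hd4]
    exact hd1
  have key := adm_fam (k := k) (X ^ 2) (X ^ 3 + (1 + X ^ 5) * X ^ t)
    ((1 + X ^ 5) + X ^ 7 * X ^ t + X ^ 4 * (1 + X ^ 5) * (X ^ t) ^ 2 +
      X * (1 + X ^ 5) ^ 2 * (X ^ t) ^ 3) ?_ ?_ ?_
  · rw [hdeg] at key
    have e : 1 + 2 * (3 * t + 11) = 6 * t + 23 := by ring
    rw [← e]
    exact key
  · generalize (X ^ t : k[X]) = u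
    linear_combination (X*u^3 + 2*X^4*u^2 + X^5 + 3*X^6*u^3 + 2*X^7*u + 4*X^9*u^2 + X^10 +
      3*X^11*u^3 + 2*X^12*u + 2*X^14*u^2 + X^16*u^3) * h2
  · rw [hdeg, natDegree_X_pow]
    omega
  · rw [hdeg]
    apply lt_of_le_of_lt (natDegree_add_le _ _)
    apply max_lt
    · rw [natDegree_X_pow]
      omega
    · apply lt_of_le_of_lt natDegree_mul_le
      rw [hw, hu]
      omega

/-- every positive degree is admissible -/
theorem adm_all (N : ℕ) (hN : 0 < N) : Adm k N := by
  induction N using Nat.strong_induction_on with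
  | _ N ih =>
    rcases Nat.even_or_odd' N with ⟨M, rfl | rfl⟩
    · have h := adm_comp (k := k) M (ih M (by omega) (by omega))
      rw [mul_comm]
      exact h
    · have h3 : M % 3 = 0 ∨ M % 3 = 1 ∨ M % 3 = 2 := by omega
      rcases h3 with h3 | h3 | h3
      · obtain ⟨h, rfl⟩ : ∃ h, M = 3 * h := ⟨M / 3, by omega⟩
        have := adm_6h1 (k := k) h
        have e : 2 * (3 * h) + 1 = 6 * h + 1 := by ring
        rw [e]
        exact this
      · obtain ⟨h, rfl⟩ : ∃ h, M = 3 * h + 1 := ⟨M / 3, by omega⟩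
        have := adm_6h3 (k := k) h
        have e : 2 * (3 * h + 1) + 1 = 6 * h + 3 := by ring
        rw [e]
        exact this
      · obtain ⟨h, rfl⟩ : ∃ h, M = 3 * h + 2 := ⟨M / 3, by omega⟩
        by_cases h0 : h = 0
        · subst h0
          exact adm_five
        by_cases h1 : h = 1
        · subst h1
          exact adm_11
        by_cases h2 : h = 2
        · subst h2
          exact adm_17
        · obtain ⟨t, rfl⟩ : ∃ t, h = t + 3 := ⟨h - 3, by omega⟩
          have := adm_23 (k := k) t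
          have e : 2 * (3 * (t + 3) + 2) + 1 = 6 * t + 23 := by ring
          rw [e]
          exact this

end Pool.Agent.W2helper79.L2
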